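import Pool.Agent.MBS.All

set_option autoImplicit false

/-! MP_ee701d_an: `‖S^* f‖₂² ≤ C(n) (‖f‖₂² + ∑_j L_j(f))` on `ℝⁿ`, where
`L_j(f) = ∫ ∫_{0 < t ≤ |x_j|/2} |f(x + t e_j) - f(x)|² log³(|x_j|/t) dt/t dx` only sees the increments
of `f` at steps small compared with the distance of the point to the hyperplane `x_j = 0`. -/

namespace Pool.Agent.MBS.Extra.LogRegular

open MeasureTheory Pool.Agent.MBS
open scoped ENNReal NNReal

theorem result (n : ℕ) : ∃ C : ℝ≥0, ∀ f : E n → ℂ, Measurable f → Integrable f → MemLp f 2 →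
    ∫⁻ x, Sstar f x ^ 2 ≤ C * ((∫⁻ x, ‖f x‖ₑ ^ 2) + ∑ j, logReg j f) :=
  fU n

end Pool.Agent.MBS.Extra.LogRegular
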