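import Pool.Agent.MBS.All

set_option autoImplicit false

/-! MP_ee701d_an: for `s > 0`, `‖S^* f‖₂ ≤ C(n,s) (1 + log Q) ‖f‖₂` for all `f` on `ℝⁿ`, `n ≥ 1`, with
Nash quotient `‖f‖₁^{2s/n} ‖|ξ|^s f^‖₂ / ‖f‖₂^{1 + 2s/n}` at most `Q`, `Q ≥ 1`. -/

namespace Pool.Agent.MBS.Extra.NashLog

open MeasureTheory FourierTransform Pool.Agent.MBS
open scoped ENNReal NNReal

theorem result (n : ℕ) (s : ℝ) (hn : 1 ≤ n) (hs : 0 < s) :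
    ∃ C : ℝ, ∀ (f : E n → ℂ) (Q : ℝ), Measurable f → Integrable f → MemLp f 2 → 1 ≤ Q →
      (∫⁻ x, ‖f x‖ₑ) ^ (2 * s / n) *
          (∫⁻ ξ, ENNReal.ofReal (‖ξ‖ ^ (2 * s)) * ‖𝓕 f ξ‖ₑ ^ 2) ^ (1 / 2 : ℝ)
        ≤ ENNReal.ofReal Q * ((∫⁻ x, ‖f x‖ₑ ^ 2) ^ (1 / 2 : ℝ)) ^ (1 + 2 * s / n) →
      (∫⁻ x, Sstar f x ^ 2) ^ (1 / 2 : ℝ) ≤
        ENNReal.ofReal (C * (1 + Real.log Q)) * (∫⁻ x, ‖f x‖ₑ ^ 2) ^ (1 / 2 : ℝ) :=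
  fE n s hn hs

end Pool.Agent.MBS.Extra.NashLog
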